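import Mathlib

/-!
# Relative expansion coefficients of quantum channels: definitions

Definitions for MP_7112d2_mp: states, channels, the classes `F` and `K`, standard `f`-divergences,
Riemannian semi-norms and the relative expansion coefficients.
-/

set_option autoImplicit false

open Matrix Filter Topology
open scoped ComplexOrder Kronecker

namespace Pool.Agent.R996.QI

/-! ## Definitions -/

section Defs

variable {n m : Type} [Fintype n] [DecidableEq n] [Fintype m] [DecidableEq m]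

/-- Density operators: positive semidefinite matrices of trace one. -/
def IsState (ρ : Matrix n n ℂ) : Prop := ρ.PosSemidef ∧ ρ.trace = 1

/-- Complete positivity of a linear map `Φ` between matrix algebras: for every `k` the map
`Φ ⊗ id_k` (apply `Φ` to each block) preserves positive semidefinite matrices. -/
def IsCompletelyPositive (Φ : Matrix n n ℂ →ₗ[ℂ] Matrix m m ℂ) : Prop :=
  ∀ (k : ℕ) (X : Matrix (n × Fin k) (n × Fin k) ℂ), X.PosSemidef →
    (Matrix.of fun (i j : m × Fin k) =>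
      Φ (Matrix.of fun a b => X (a, i.2) (b, j.2)) i.1 j.1).PosSemidef

/-- A channel: a completely positive trace-preserving linear map. -/
def IsChannel (Φ : Matrix n n ℂ →ₗ[ℂ] Matrix m m ℂ) : Prop :=
  IsCompletelyPositive Φ ∧ ∀ X, (Φ X).trace = X.trace

/-- Operator convexity on `(0, ∞)`, where `cfc f A` is `f(A)` (functional calculus). -/
def OperatorConvex (f : ℝ → ℝ) : Prop :=
  ∀ (k : ℕ) (A B : Matrix (Fin k) (Fin k) ℂ), A.PosDef → B.PosDef → ∀ t : ℝ, 0 ≤ t → t ≤ 1 →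
    (t • cfc f A + (1 - t) • cfc f B - cfc f (t • A + (1 - t) • B)).PosSemidef

/-- The class `F`: operator convex `f` on `(0, ∞)` with `f(1) = 0` and `f''(1) > 0`. -/
def ClassF (f : ℝ → ℝ) : Prop := OperatorConvex f ∧ f 1 = 0 ∧ 0 < deriv (deriv f) 1

/-- The class `K`: operator convex `κ` on `(0, ∞)` with `x κ(x) = κ(1/x)` and `κ(1) = 1`. -/
def ClassK (κ : ℝ → ℝ) : Prop :=
  OperatorConvex κ ∧ (∀ x : ℝ, 0 < x → x * κ x = κ (1 / x)) ∧ κ 1 = 1

/-- The generalised inverse of a Hermitian matrix on its support (`0⁻¹ = 0`). -/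
noncomputable def ginv (σ : Matrix n n ℂ) : Matrix n n ℂ := cfc (fun x : ℝ => x⁻¹) σ

/-- The operator `L_ρ R_γ⁻¹ : X ↦ ρ X γ⁻¹` on the Hilbert space of matrices with the
Hilbert-Schmidt inner product, as a matrix indexed by pairs (generalised inverse of `γ`). -/
noncomputable def relMod (ρ γ : Matrix n n ℂ) : Matrix (n × n) (n × n) ℂ := ρ ⊗ₖ (ginv γ)ᵀ

/-- A matrix as a vector with the Hilbert-Schmidt inner product. -/
def vec (X : Matrix n n ℂ) : n × n → ℂ := fun p => X p.1 p.2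

/-- The standard `f`-divergence `⟨γ^{1/2}, f(L_ρ R_γ⁻¹) γ^{1/2}⟩` (used for equal supports). -/
noncomputable def stdDiv (f : ℝ → ℝ) (ρ γ : Matrix n n ℂ) : ℝ :=
  (star (vec (cfc Real.sqrt γ)) ⬝ᵥ (cfc f (relMod ρ γ) *ᵥ vec (cfc Real.sqrt γ))).re

/-- The Riemannian semi-norm squared `⟨Y, κ(L_σ R_σ⁻¹) R_σ⁻¹ Y⟩`. At the eigenvalue `0` of
`L_σ R_σ⁻¹` (singular `σ`) it uses `κ 0`, which for the function in the result is `κ(0⁺)`. -/
noncomputable def riemSq (κ : ℝ → ℝ) (σ Y : Matrix n n ℂ) : ℝ :=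
  (star (vec Y) ⬝ᵥ (cfc κ (relMod σ σ) *ᵥ vec (Y * ginv σ))).re

end Defs

section Coeff

variable {n m l : Type} [Fintype n] [DecidableEq n] [Fintype m] [DecidableEq m]
  [Fintype l] [DecidableEq l]

/-- All quotients `D_f(N ρ ‖ N γ) / D_f(M ρ ‖ M γ)` with nonzero denominator, for states
`ρ ≠ γ` with equal supports (equal kernels). Their infimum is the relative expansion coefficient
of the standard `f`-divergence. -/
def stdRatios (f : ℝ → ℝ) (N : Matrix n n ℂ →ₗ[ℂ] Matrix m m ℂ)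
    (M : Matrix n n ℂ →ₗ[ℂ] Matrix l l ℂ) : Set ℝ :=
  {r | ∃ ρ γ : Matrix n n ℂ, IsState ρ ∧ IsState γ ∧ ρ ≠ γ ∧
    (∀ v : n → ℂ, ρ *ᵥ v = 0 ↔ γ *ᵥ v = 0) ∧ stdDiv f (M ρ) (M γ) ≠ 0 ∧
    r = stdDiv f (N ρ) (N γ) / stdDiv f (M ρ) (M γ)}

/-- All quotients of the Riemannian semi-norms with nonzero denominator, for states `ρ` and
traceless self-adjoint `X`. Their infimum is the Riemannian relative expansion coefficient. -/
def riemRatios (κ : ℝ → ℝ) (N : Matrix n n ℂ →ₗ[ℂ] Matrix m m ℂ)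
    (M : Matrix n n ℂ →ₗ[ℂ] Matrix l l ℂ) : Set ℝ :=
  {r | ∃ ρ X : Matrix n n ℂ, IsState ρ ∧ X.IsHermitian ∧ X.trace = 0 ∧
    riemSq κ (M ρ) (M X) ≠ 0 ∧ r = riemSq κ (N ρ) (N X) / riemSq κ (M ρ) (M X)}

/-- The relative expansion coefficient of the standard `f`-divergence. -/
noncomputable def etaStd (f : ℝ → ℝ) (N : Matrix n n ℂ →ₗ[ℂ] Matrix m m ℂ)
    (M : Matrix n n ℂ →ₗ[ℂ] Matrix l l ℂ) : ℝ := sInf (stdRatios f N M)

/-- The Riemannian relative expansion coefficient. -/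
noncomputable def etaRiem (κ : ℝ → ℝ) (N : Matrix n n ℂ →ₗ[ℂ] Matrix m m ℂ)
    (M : Matrix n n ℂ →ₗ[ℂ] Matrix l l ℂ) : ℝ := sInf (riemRatios κ N M)

end Coeff

end Pool.Agent.R996.QI
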