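import Pool.Agent.R996.QI.Defs

set_option autoImplicit false

open Matrix Filter Topology
open scoped ComplexOrder Kronecker

namespace Pool.Agent.R996.QI

/-! ## Functional calculus lemmas -/

section FC

variable {n m : Type} [Fintype n] [DecidableEq n] [Fintype m] [DecidableEq m]

lemma contOn (f : ℝ → ℝ) (A : Matrix n n ℂ) : ContinuousOn f (spectrum ℝ A) :=
  (Matrix.finite_real_spectrum (A := A)).continuousOn f

omit [Fintype n] in
lemma diag_isHermitian (d : n → ℝ) :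
    (diagonal fun i => (d i : ℂ)).IsHermitian := by
  rw [IsHermitian, diagonal_conjTranspose]
  congr 1
  ext i
  simp

lemma cfc_diag (f : ℝ → ℝ) (d : n → ℝ) :
    cfc f (diagonal fun i => (d i : ℂ)) = diagonal fun i => (f (d i) : ℂ) := by
  classical
  set s : Finset ℝ := Finset.univ.image d with hs
  set p := Lagrange.interpolate s id f with hp
  have hpe : ∀ i, p.eval (d i) = f (d i) := fun i =>
    Lagrange.eval_interpolate_at_node f (Function.injective_id.injOn)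
      (by simp [hs])
  have hspec : spectrum ℝ (diagonal fun i => (d i : ℂ)) ⊆ Set.range d := by
    intro x hx
    have h1 : (x : ℂ) ∈ spectrum ℂ (diagonal fun i => (d i : ℂ)) := by
      have := spectrum.algebraMap_mem ℂ hx
      simpa using this
    rw [spectrum_diagonal] at h1
    obtain ⟨i, hi⟩ := h1
    refine ⟨i, ?_⟩
    simpa using hi
  have h1 : cfc f (diagonal fun i => (d i : ℂ)) =
      cfc p.eval (diagonal fun i => (d i : ℂ)) := by
    apply cfc_congr
    intro x hx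
    obtain ⟨i, rfl⟩ := hspec hx
    exact (hpe i).symm
  rw [h1, cfc_polynomial p _ (show IsSelfAdjoint _ from diag_isHermitian d)]
  have h2 : ∀ q : Polynomial ℝ, Polynomial.aeval (diagonal fun i => (d i : ℂ)) q =
      diagonal fun i => ((q.eval (d i) : ℝ) : ℂ) := by
    intro q
    induction q using Polynomial.induction_on' with
    | add a b ha hb =>
      rw [map_add, ha, hb, diagonal_add]
      congr 1
      ext i
      simp
    | monomial k c =>
      rw [Polynomial.aeval_monomial, diagonal_pow]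
      ext i j
      rw [Matrix.algebraMap_eq_diagonal, diagonal_mul_diagonal]
      simp only [diagonal_apply]
      split_ifs
      · simp
      · rfl
  rw [h2]
  congr 1
  ext i
  rw [hpe]

lemma cfc_sq (A : Matrix n n ℂ) (hA : A.IsHermitian) :
    cfc (fun x : ℝ => (x - 1) ^ 2) A = (A - 1) * (A - 1) := by
  have h := cfc_polynomial (R := ℝ) ((Polynomial.X - 1) ^ 2) A hA
  have h2 : (((Polynomial.X - 1) ^ 2 : Polynomial ℝ)).eval = fun x : ℝ => (x - 1) ^ 2 := by
    ext x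
    simp
  rw [h2] at h
  rw [h, map_pow, map_sub, Polynomial.aeval_X, map_one, sq]

/-- the function `κ(x) = 2 / (1 + x)` -/
noncomputable def kap (x : ℝ) : ℝ := 2 / (1 + x)

lemma spec_nonneg {A : Matrix n n ℂ} (hA : A.PosSemidef) {x : ℝ} (hx : x ∈ spectrum ℝ A) :
    0 ≤ x := by
  have h1 : (x : ℂ) ∈ spectrum ℂ A := by
    have := spectrum.algebraMap_mem ℂ hx
    simpa using this
  have h2 : (0 : ℂ) ≤ (x : ℂ) := ((posSemidef_iff_isHermitian_and_spectrum_nonneg).1 hA).2 h1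
  exact_mod_cast h2

lemma cfc_kap_mul {A : Matrix n n ℂ} (hA : A.PosSemidef) :
    cfc kap A * (1 + A) = (2 : ℝ) • (1 : Matrix n n ℂ) := by
  have hs : IsSelfAdjoint A := hA.1
  have h1 : cfc (fun x : ℝ => 1 + x) A = 1 + A := by
    have h := cfc_polynomial (R := ℝ) (1 + Polynomial.X) A hs
    have h2 : ((1 + Polynomial.X : Polynomial ℝ)).eval = fun x : ℝ => 1 + x := by
      ext x
      simp
    rw [h2] at h
    rw [h, map_add, Polynomial.aeval_X, map_one]
  rw [← h1, ← cfc_mul _ _ A (contOn _ _) (contOn _ _)]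
  have h3 : cfc (fun x : ℝ => kap x * (1 + x)) A = cfc (fun _ : ℝ => (2 : ℝ)) A := by
    apply cfc_congr
    intro x hx
    have := spec_nonneg hA hx
    simp only [kap]
    field_simp
  rw [h3, cfc_const 2 A hs, Algebra.algebraMap_eq_smul_one]

lemma cfc_kap {A : Matrix n n ℂ} (hA : A.PosSemidef) :
    cfc kap A = (2 : ℝ) • (1 + A)⁻¹ := by
  have h1 : (1 + A).PosDef := PosDef.one.add_posSemidef hA
  have h2 := cfc_kap_mul hA
  have h3 : cfc kap A = cfc kap A * (1 + A) * (1 + A)⁻¹ := by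
    rw [mul_assoc, Matrix.mul_nonsing_inv _ ((Matrix.isUnit_iff_isUnit_det _).1 h1.isUnit), mul_one]
  rw [h3, h2, smul_mul_assoc, one_mul]

end FC

/-! ## The two functions -/

lemma opConvex_sq : OperatorConvex fun x => (x - 1) ^ 2 := by
  intro k A B hA hB t ht0 ht1
  have hAB : (t • A + (1 - t) • B).IsHermitian := by
    have h1 := hA.1
    have h2 := hB.1
    rw [IsHermitian] at *
    rw [conjTranspose_add, conjTranspose_smul, conjTranspose_smul, h1, h2]
    simp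
  rw [cfc_sq A hA.1, cfc_sq B hB.1, cfc_sq _ hAB]
  have h3 : t • ((A - 1) * (A - 1)) + (1 - t) • ((B - 1) * (B - 1)) -
      (t • A + (1 - t) • B - 1) * (t • A + (1 - t) • B - 1) =
      (t * (1 - t)) • ((A - B)ᴴ * (A - B)) := by
    rw [conjTranspose_sub, hA.1, hB.1]
    simp only [sub_mul, mul_sub, add_mul, mul_add, smul_mul_assoc, mul_smul_comm, smul_sub,
      smul_add, smul_smul, mul_one, one_mul]
    module
  rw [h3]
  exact (posSemidef_conjTranspose_mul_self _).smul (mul_nonneg ht0 (by linarith))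

/-- variational bound for the inverse of a positive definite matrix -/
lemma inv_var {k : ℕ} {A : Matrix (Fin k) (Fin k) ℂ} (hA : A.PosDef) (v w : Fin k → ℂ) :
    0 ≤ star v ⬝ᵥ (A⁻¹ *ᵥ v) - star w ⬝ᵥ v - star v ⬝ᵥ w + star w ⬝ᵥ (A *ᵥ w) := by
  have hu := (Matrix.isUnit_iff_isUnit_det _).1 hA.isUnit
  have h := (hA.posSemidef).dotProduct_mulVec_nonneg (w - A⁻¹ *ᵥ v)
  have e1 : A *ᵥ (A⁻¹ *ᵥ v) = v := by
    rw [mulVec_mulVec, Matrix.mul_nonsing_inv _ hu, one_mulVec]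
  have e2 : star (A⁻¹ *ᵥ v) ⬝ᵥ (A *ᵥ w) = star v ⬝ᵥ w := by
    rw [star_mulVec, dotProduct_mulVec, vecMul_vecMul, hA.inv.1,
      Matrix.nonsing_inv_mul _ hu, vecMul_one]
  have e3 : star (A⁻¹ *ᵥ v) ⬝ᵥ v = star v ⬝ᵥ (A⁻¹ *ᵥ v) := by
    rw [star_mulVec, hA.inv.1, ← dotProduct_mulVec]
  rw [mulVec_sub, e1, star_sub, sub_dotProduct, dotProduct_sub, dotProduct_sub, e2, e3] at h
  convert h using 1
  ring

lemma opConvex_kap : OperatorConvex kap := by
  intro k A B hA hB t ht0 ht1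
  have ht1' : 0 ≤ 1 - t := by linarith
  have hC : (t • A + (1 - t) • B).PosSemidef :=
    (hA.posSemidef.smul ht0).add (hB.posSemidef.smul ht1')
  rw [cfc_kap hA.posSemidef, cfc_kap hB.posSemidef, cfc_kap hC]
  set A' := 1 + A with hA'
  set B' := 1 + B with hB'
  have pA : A'.PosDef := PosDef.one.add_posSemidef hA.posSemidef
  have pB : B'.PosDef := PosDef.one.add_posSemidef hB.posSemidef
  have pC : (1 + (t • A + (1 - t) • B)).PosDef := PosDef.one.add_posSemidef hC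
  have eC : 1 + (t • A + (1 - t) • B) = t • A' + (1 - t) • B' := by
    rw [hA', hB']
    module
  rw [eC] at pC ⊢
  set C' := t • A' + (1 - t) • B' with hC'
  have key : (t • A'⁻¹ + (1 - t) • B'⁻¹ - C'⁻¹).PosSemidef := by
    apply PosSemidef.of_dotProduct_mulVec_nonneg
    · have h1 := pA.inv.1
      have h2 := pB.inv.1
      have h3 := pC.inv.1
      rw [IsHermitian] at *
      rw [conjTranspose_sub, conjTranspose_add, conjTranspose_smul, conjTranspose_smul, h1, h2, h3]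
      simp
    · intro v
      have hu := (Matrix.isUnit_iff_isUnit_det _).1 pC.isUnit
      set w := C'⁻¹ *ᵥ v with hw
      have a1 := inv_var pA v w
      have a2 := inv_var pB v w
      have e1 : C' *ᵥ w = v := by
        rw [hw, mulVec_mulVec, Matrix.mul_nonsing_inv _ hu, one_mulVec]
      have e2 : star w ⬝ᵥ (A' *ᵥ w) * t + star w ⬝ᵥ (B' *ᵥ w) * (1 - t) = star w ⬝ᵥ v := by
        conv_rhs => rw [← e1, hC', add_mulVec, smul_mulVec, smul_mulVec, dotProduct_add,
          dotProduct_smul, dotProduct_smul, Complex.real_smul, Complex.real_smul]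
        push_cast
        ring
      have e3 : star v ⬝ᵥ ((t • A'⁻¹ + (1 - t) • B'⁻¹ - C'⁻¹) *ᵥ v) =
          t * (star v ⬝ᵥ (A'⁻¹ *ᵥ v) - star w ⬝ᵥ v - star v ⬝ᵥ w + star w ⬝ᵥ (A' *ᵥ w)) +
          (1 - t) * (star v ⬝ᵥ (B'⁻¹ *ᵥ v) - star w ⬝ᵥ v - star v ⬝ᵥ w
            + star w ⬝ᵥ (B' *ᵥ w)) := by
        rw [sub_mulVec, add_mulVec, smul_mulVec, smul_mulVec, dotProduct_sub, dotProduct_add,
          dotProduct_smul, dotProduct_smul, Complex.real_smul, Complex.real_smul, ← hw]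
        push_cast
        linear_combination -e2
      rw [e3]
      have ht0c : (0 : ℂ) ≤ (t : ℂ) := by exact_mod_cast ht0
      have ht1c : (0 : ℂ) ≤ (1 - t : ℂ) := by
        have : ((0 : ℝ) : ℂ) ≤ ((1 - t : ℝ) : ℂ) := by exact_mod_cast ht1'
        push_cast at this
        exact this
      exact add_nonneg (mul_nonneg ht0c a1) (mul_nonneg ht1c a2)
  have e : t • (2 : ℝ) • A'⁻¹ + (1 - t) • (2 : ℝ) • B'⁻¹ - (2 : ℝ) • C'⁻¹ =
      (2 : ℝ) • (t • A'⁻¹ + (1 - t) • B'⁻¹ - C'⁻¹) := by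
    module
  rw [e]
  exact key.smul (by norm_num)

lemma classF_sq : ClassF fun x => (x - 1) ^ 2 := by
  refine ⟨opConvex_sq, by norm_num, ?_⟩
  have h1 : deriv (fun x : ℝ => (x - 1) ^ 2) = fun x => 2 * (x - 1) := by
    ext x
    have : HasDerivAt (fun x : ℝ => (x - 1) ^ 2) (2 * (x - 1)) x := by
      have h := ((hasDerivAt_id x).sub_const (1 : ℝ)).fun_pow 2
      simpa using h
    exact this.deriv
  rw [h1]
  have : HasDerivAt (fun x : ℝ => 2 * (x - 1)) 2 1 := by
    have h := ((hasDerivAt_id (1 : ℝ)).sub_const (1 : ℝ)).const_mul 2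
    simpa using h
  rw [this.deriv]
  norm_num

lemma classK_kap : ClassK kap := by
  refine ⟨opConvex_kap, fun x hx => ?_, ?_⟩
  · unfold kap
    field_simp
    ring
  · unfold kap
    norm_num

/-! ## Channels in Kraus form -/

section Kraus

variable {n m ι : Type} [Fintype n] [DecidableEq n] [Fintype m] [DecidableEq m] [Fintype ι]

/-- `X ↦ ∑ c_a K_a X K_a†` -/
noncomputable def krausMap (c : ι → ℝ) (K : ι → Matrix m n ℂ) :
    Matrix n n ℂ →ₗ[ℂ] Matrix m m ℂ where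
  toFun X := ∑ a, (c a : ℂ) • (K a * X * (K a)ᴴ)
  map_add' X Y := by
    simp only [Matrix.mul_add, Matrix.add_mul, smul_add, Finset.sum_add_distrib]
  map_smul' z X := by
    simp only [Matrix.mul_smul, Matrix.smul_mul, RingHom.id_apply, Finset.smul_sum]
    refine Finset.sum_congr rfl fun a _ => ?_
    rw [smul_comm]

omit [Fintype m] [DecidableEq n] [DecidableEq m] in
lemma krausMap_apply (c : ι → ℝ) (K : ι → Matrix m n ℂ) (X : Matrix n n ℂ) :
    krausMap c K X = ∑ a, (c a : ℂ) • (K a * X * (K a)ᴴ) := rfl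

omit [DecidableEq n] [DecidableEq m] in
lemma krausMap_cp (c : ι → ℝ) (hc : ∀ a, 0 ≤ c a) (K : ι → Matrix m n ℂ) (k : ℕ)
    (X : Matrix (n × Fin k) (n × Fin k) ℂ) (hX : X.PosSemidef) :
    (Matrix.of fun (i j : m × Fin k) =>
      krausMap c K (Matrix.of fun a b => X (a, i.2) (b, j.2)) i.1 j.1).PosSemidef := by
  classical
  have h : (Matrix.of fun (i j : m × Fin k) =>
      krausMap c K (Matrix.of fun a b => X (a, i.2) (b, j.2)) i.1 j.1) =
      ∑ a, (c a : ℂ) • ((K a ⊗ₖ (1 : Matrix (Fin k) (Fin k) ℂ)) * X *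
        (K a ⊗ₖ (1 : Matrix (Fin k) (Fin k) ℂ))ᴴ) := by
    ext i j
    rw [Matrix.of_apply, krausMap_apply, Matrix.sum_apply, Matrix.sum_apply]
    refine Finset.sum_congr rfl fun a _ => ?_
    rw [Matrix.smul_apply, Matrix.smul_apply]
    congr 1
    simp only [Matrix.mul_apply, Matrix.conjTranspose_apply, Matrix.kroneckerMap_apply,
      Fintype.sum_prod_type, Matrix.of_apply, Matrix.one_apply, star_mul']
    simp only [mul_ite, mul_one, mul_zero, ite_mul, zero_mul, Finset.sum_ite_eq,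
      Finset.mem_univ, if_true, apply_ite star, star_one, star_zero]
  rw [h]
  refine posSemidef_sum _ fun a _ => ?_
  exact (hX.mul_mul_conjTranspose_same _).smul (by exact_mod_cast hc a)

omit [DecidableEq m] in
lemma krausMap_trace (c : ι → ℝ) (K : ι → Matrix m n ℂ)
    (h1 : ∑ a, (c a : ℂ) • ((K a)ᴴ * K a) = 1) (X : Matrix n n ℂ) :
    (krausMap c K X).trace = X.trace := by
  rw [krausMap_apply, trace_sum]
  have h : ∀ a, ((c a : ℂ) • (K a * X * (K a)ᴴ)).trace =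
      (((c a : ℂ) • ((K a)ᴴ * K a)) * X).trace := by
    intro a
    rw [trace_smul, smul_mul_assoc, trace_smul, Matrix.trace_mul_comm, ← Matrix.mul_assoc]
  rw [Finset.sum_congr rfl fun a _ => h a, ← trace_sum, ← Finset.sum_mul, h1, one_mul]

end Kraus

/-- Partial dephasing: `X ↦ (3/4) X + (1/4) Z X Z`. -/
noncomputable def chM : Matrix (Fin 2) (Fin 2) ℂ →ₗ[ℂ] Matrix (Fin 2) (Fin 2) ℂ :=
  krausMap (ι := Fin 2) ![3 / 4, 1 / 4] ![1, !![1, 0; 0, -1]]

/-- The vectors of the three Pauli bases (not normalised). -/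
noncomputable def uvec : Fin 6 → Fin 2 → ℂ :=
  ![![1, 0], ![0, 1], ![1, 1], ![1, -1], ![1, Complex.I], ![1, -Complex.I]]

/-- Measurement in a random Pauli basis, with classical (diagonal) output in `ℂ⁶`. -/
noncomputable def chN : Matrix (Fin 2) (Fin 2) ℂ →ₗ[ℂ] Matrix (Fin 6) (Fin 6) ℂ :=
  krausMap (ι := Fin 6) ![1 / 3, 1 / 3, 1 / 6, 1 / 6, 1 / 6, 1 / 6]
    (fun a => Matrix.of fun i j => if i = a then star (uvec a j) else 0)

lemma chM_apply (X : Matrix (Fin 2) (Fin 2) ℂ) :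
    chM X = !![X 0 0, X 0 1 / 2; X 1 0 / 2, X 1 1] := by
  rw [chM, krausMap_apply]
  ext i j
  rw [Matrix.sum_apply, Fin.sum_univ_two]
  simp only [Matrix.smul_apply, Matrix.mul_apply, Matrix.conjTranspose_apply, Fin.sum_univ_two]
  fin_cases i <;> fin_cases j <;> simp <;> ring

lemma chN_apply (X : Matrix (Fin 2) (Fin 2) ℂ) :
    chN X = diagonal ![X 0 0 / 3, X 1 1 / 3,
      (X 0 0 + X 0 1 + X 1 0 + X 1 1) / 6, (X 0 0 - X 0 1 - X 1 0 + X 1 1) / 6,
      (X 0 0 + Complex.I * X 0 1 - Complex.I * X 1 0 + X 1 1) / 6,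
      (X 0 0 - Complex.I * X 0 1 + Complex.I * X 1 0 + X 1 1) / 6] := by
  rw [chN, krausMap_apply]
  ext i j
  rw [Matrix.sum_apply]
  simp only [Matrix.smul_apply, Matrix.mul_apply, Matrix.of_apply, Matrix.conjTranspose_apply,
    Fin.sum_univ_two]
  by_cases hij : i = j
  · subst hij
    rw [Finset.sum_eq_single i]
    · rw [diagonal_apply, if_pos rfl]
      fin_cases i <;> simp [uvec] <;> ring_nf
      · simp only [Complex.I_sq]; ring
      · simp only [Complex.I_sq]; ring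
    · intro b _ hb
      simp [Ne.symm hb]
    · intro h
      exact absurd (Finset.mem_univ _) h
  · rw [diagonal_apply, if_neg hij]
    refine Finset.sum_eq_zero fun a _ => ?_
    by_cases h1 : i = a
    · have h2 : j ≠ a := fun h => hij (h1.trans h.symm)
      simp [h2]
    · simp [h1]

lemma chM_channel : IsChannel chM := by
  refine ⟨krausMap_cp _ ?_ _, krausMap_trace _ _ ?_⟩
  · intro a
    fin_cases a <;> norm_num
  · ext i j
    rw [Matrix.sum_apply, Fin.sum_univ_two]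
    simp only [Matrix.smul_apply, Matrix.mul_apply, Matrix.conjTranspose_apply, Fin.sum_univ_two]
    fin_cases i <;> fin_cases j <;> simp <;> norm_num

lemma chN_channel : IsChannel chN := by
  refine ⟨krausMap_cp _ ?_ _, fun X => ?_⟩
  · intro a
    fin_cases a <;> norm_num
  · rw [chN_apply, trace_diagonal, Matrix.trace, Fin.sum_univ_six, Fin.sum_univ_two]
    simp
    ring

/-! ## Divergence and semi-norm: general lemmas -/

section General

variable {n : Type} [Fintype n] [DecidableEq n]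

omit [Fintype n] [DecidableEq n] in
lemma diag_eq_of_real {k : ℕ} (v : Fin k → ℂ) (d : Fin k → ℝ) (h : ∀ i, v i = d i) :
    (diagonal v : Matrix (Fin k) (Fin k) ℂ) = diagonal fun i => (d i : ℂ) := by
  congr 1
  ext i
  exact h i

lemma ginv_diag (d : n → ℝ) :
    ginv (diagonal fun i => (d i : ℂ)) = diagonal fun i => (((d i)⁻¹ : ℝ) : ℂ) :=
  cfc_diag _ d

lemma relMod_diag (p q : n → ℝ) :
    relMod (diagonal fun i => (p i : ℂ)) (diagonal fun i => (q i : ℂ)) =
      diagonal fun x : n × n => ((p x.1 * (q x.2)⁻¹ : ℝ) : ℂ) := by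
  rw [relMod, ginv_diag, diagonal_transpose, diagonal_kronecker_diagonal]
  congr 1
  ext x
  push_cast
  rfl

lemma stdDiv_diag (f : ℝ → ℝ) (p q : n → ℝ) (hq : ∀ i, 0 ≤ q i) :
    stdDiv f (diagonal fun i => (p i : ℂ)) (diagonal fun i => (q i : ℂ)) =
      ∑ i, q i * f (p i * (q i)⁻¹) := by
  rw [stdDiv, relMod_diag, cfc_diag, cfc_diag]
  simp only [dotProduct, mulVec_diagonal, vec, Pi.star_apply, Fintype.sum_prod_type]
  rw [← Complex.reCLM_apply, map_sum]
  refine Finset.sum_congr rfl fun i _ => ?_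
  rw [Finset.sum_eq_single i]
  · simp only [diagonal_apply, if_true, Complex.reCLM_apply]
    have h : (star ((Real.sqrt (q i) : ℝ) : ℂ) *
        (((f (p i * (q i)⁻¹) : ℝ) : ℂ) * ((Real.sqrt (q i) : ℝ) : ℂ))) =
        ((Real.sqrt (q i) * Real.sqrt (q i) * f (p i * (q i)⁻¹) : ℝ) : ℂ) := by
      simp only [Complex.star_def, Complex.conj_ofReal]
      push_cast
      ring
    rw [h, Complex.ofReal_re, Real.mul_self_sqrt (hq i)]
  · intro j _ hj
    simp [Ne.symm hj]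
  · intro h
    exact absurd (Finset.mem_univ _) h

lemma riemSq_diag (κ : ℝ → ℝ) (p w : n → ℝ) :
    riemSq κ (diagonal fun i => (p i : ℂ)) (diagonal fun i => (w i : ℂ)) =
      ∑ i, w i ^ 2 * κ (p i * (p i)⁻¹) * (p i)⁻¹ := by
  rw [riemSq, relMod_diag, cfc_diag, ginv_diag, diagonal_mul_diagonal]
  simp only [dotProduct, mulVec_diagonal, vec, Pi.star_apply, Fintype.sum_prod_type]
  rw [← Complex.reCLM_apply, map_sum]
  refine Finset.sum_congr rfl fun i _ => ?_
  rw [Finset.sum_eq_single i]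
  · simp only [diagonal_apply, if_true, Complex.reCLM_apply]
    have h : (star ((w i : ℝ) : ℂ) *
        (((κ (p i * (p i)⁻¹) : ℝ) : ℂ) * (((w i : ℝ) : ℂ) * (((p i)⁻¹ : ℝ) : ℂ)))) =
        ((w i ^ 2 * κ (p i * (p i)⁻¹) * (p i)⁻¹ : ℝ) : ℂ) := by
      simp only [Complex.star_def, Complex.conj_ofReal]
      push_cast
      ring
    rw [h, Complex.ofReal_re]
  · intro j _ hj
    simp [Ne.symm hj]
  · intro h
    exact absurd (Finset.mem_univ _) h

omit [DecidableEq n] in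
lemma vec_inner (A B : Matrix n n ℂ) : star (vec A) ⬝ᵥ vec B = (Aᴴ * B).trace := by
  simp only [dotProduct, vec, Pi.star_apply, Fintype.sum_prod_type, Matrix.trace, Matrix.diag,
    Matrix.mul_apply, Matrix.conjTranspose_apply]
  exact Finset.sum_comm

lemma relMod_mulVec (ρ γ X : Matrix n n ℂ) :
    relMod ρ γ *ᵥ vec X = vec (ρ * X * ginv γ) := by
  ext ⟨i, j⟩
  simp only [relMod, mulVec, dotProduct, vec, Fintype.sum_prod_type, Matrix.mul_apply,
    Matrix.kroneckerMap_apply, Matrix.transpose_apply, Finset.sum_mul]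
  rw [Finset.sum_comm]
  refine Finset.sum_congr rfl fun a _ => Finset.sum_congr rfl fun b _ => ?_
  ring

open scoped MatrixOrder in
lemma ginv_posSemidef {σ : Matrix n n ℂ} (hσ : σ.PosSemidef) : (ginv σ).PosSemidef := by
  rw [← nonneg_iff_posSemidef, ginv]
  apply cfc_nonneg
  intro x hx
  exact inv_nonneg.2 (spec_nonneg hσ hx)

lemma relMod_posSemidef {ρ γ : Matrix n n ℂ} (hρ : ρ.PosSemidef) (hγ : γ.PosSemidef) :
    (relMod ρ γ).PosSemidef :=
  hρ.kronecker (ginv_posSemidef hγ).transpose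

open scoped MatrixOrder in
lemma stdDiv_nonneg {f : ℝ → ℝ} (hf : ∀ x, 0 ≤ f x) (ρ γ : Matrix n n ℂ) :
    0 ≤ stdDiv f ρ γ := by
  have h : (cfc f (relMod ρ γ)).PosSemidef := by
    rw [← nonneg_iff_posSemidef]
    exact cfc_nonneg fun x _ => hf x
  have h2 := h.dotProduct_mulVec_nonneg (vec (cfc Real.sqrt γ))
  exact (Complex.nonneg_iff.1 h2).1

/-- For an invertible state, the Bures norm is computed by the solution of `σG + Gσ = 2Y`. -/
lemma riemSq_of_solve {σ Y G : Matrix n n ℂ} (hσ : σ.PosDef) (h : σ * G + G * σ = 2 • Y) :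
    riemSq kap σ Y = (Yᴴ * G).trace.re := by
  have hu := (Matrix.isUnit_iff_isUnit_det _).1 hσ.isUnit
  have hg : σ * ginv σ = 1 := by
    have h1 : cfc (fun x : ℝ => x) σ = σ := cfc_id' ℝ σ hσ.1
    conv_lhs => rw [← h1]
    rw [h1, ginv]
    conv_lhs => lhs; rw [← h1]
    rw [← cfc_mul _ _ σ (contOn _ _) (contOn _ _)]
    have h2 : cfc (fun x : ℝ => x * x⁻¹) σ = cfc (fun _ : ℝ => (1 : ℝ)) σ := by
      apply cfc_congr
      intro x hx
      have hx0 : x ≠ 0 := by
        rintro rfl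
        exact spectrum.zero_notMem ℝ hσ.isUnit hx
      simp [hx0]
    rw [h2, cfc_const (1 : ℝ) σ (show IsSelfAdjoint σ from hσ.1), map_one]
  have hS := relMod_posSemidef hσ.posSemidef hσ.posSemidef
  have key : vec (Y * ginv σ) = ((1 / 2 : ℝ) : ℂ) • ((1 + relMod σ σ) *ᵥ vec G) := by
    rw [add_mulVec, one_mulVec, relMod_mulVec]
    have h3 : Y * ginv σ = ((1 / 2 : ℝ) : ℂ) • (G + σ * G * ginv σ) := by
      have h4 : G + σ * G * ginv σ = (2 : ℕ) • (Y * ginv σ) := by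
        rw [← smul_mul_assoc, ← h, add_mul, mul_assoc G, hg, mul_one, add_comm]
      rw [h4, two_nsmul, ← two_smul ℂ, smul_smul]
      norm_num
    rw [h3]
    rfl
  rw [riemSq, key, mulVec_smul, mulVec_mulVec, cfc_kap_mul hS, smul_mulVec, one_mulVec,
    smul_comm, ← vec_inner]
  congr 1
  rw [← Complex.coe_smul (2 : ℝ), dotProduct_smul, dotProduct_smul, smul_smul]
  norm_num

end General

/-! ## The divergence coefficient is zero -/

lemma stdDiv_sq_of_hermitian {n : Type} [Fintype n] [DecidableEq n] {ρ γ : Matrix n n ℂ}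
    (hρ : ρ.PosSemidef) (hγ : γ.PosSemidef) :
    stdDiv (fun x => (x - 1) ^ 2) ρ γ =
      ((ρ * cfc Real.sqrt γ * ginv γ - cfc Real.sqrt γ)ᴴ *
        (ρ * cfc Real.sqrt γ * ginv γ - cfc Real.sqrt γ)).trace.re := by
  have hS := relMod_posSemidef hρ hγ
  rw [stdDiv, cfc_sq _ hS.1, ← mulVec_mulVec]
  have h1 : (relMod ρ γ - 1) *ᵥ vec (cfc Real.sqrt γ) =
      vec (ρ * cfc Real.sqrt γ * ginv γ - cfc Real.sqrt γ) := by
    rw [sub_mulVec, relMod_mulVec, one_mulVec]
    rfl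
  have h2 : (relMod ρ γ - 1)ᴴ = relMod ρ γ - 1 := by
    rw [conjTranspose_sub, hS.1, conjTranspose_one]
  rw [dotProduct_mulVec, ← h2, ← star_mulVec, h2, h1, vec_inner]

/-- the state `[[1 - e, c], [c, e]]` -/
noncomputable def rhoE (e c : ℝ) : Matrix (Fin 2) (Fin 2) ℂ :=
  !![((1 - e : ℝ) : ℂ), (c : ℂ); (c : ℂ), (e : ℂ)]

lemma rhoE_posDef {e c : ℝ} (_he0 : 0 < e) (he1 : e < 1) (hc : c ^ 2 < e * (1 - e)) :
    (rhoE e c).PosDef := by
  apply PosDef.of_dotProduct_mulVec_pos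
  · rw [IsHermitian, rhoE]
    ext i j
    fin_cases i <;> fin_cases j <;> simp
  · intro v hv
    have h1 : star v ⬝ᵥ (rhoE e c *ᵥ v) =
        (((1 - e) * (v 0).re ^ 2 + (1 - e) * (v 0).im ^ 2 + e * (v 1).re ^ 2 + e * (v 1).im ^ 2
          + 2 * c * ((v 0).re * (v 1).re + (v 0).im * (v 1).im) : ℝ) : ℂ) := by
      apply Complex.ext <;>
      simp [rhoE, dotProduct, mulVec, Fin.sum_univ_two, -Complex.ofReal_pow] <;> ring
    rw [h1]
    have h2 : 0 < (1 - e) * (v 0).re ^ 2 + (1 - e) * (v 0).im ^ 2 + e * (v 1).re ^ 2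
        + e * (v 1).im ^ 2 + 2 * c * ((v 0).re * (v 1).re + (v 0).im * (v 1).im) := by
      have h3 : (1 - e) * ((1 - e) * (v 0).re ^ 2 + (1 - e) * (v 0).im ^ 2 + e * (v 1).re ^ 2
        + e * (v 1).im ^ 2 + 2 * c * ((v 0).re * (v 1).re + (v 0).im * (v 1).im)) =
        ((1 - e) * (v 0).re + c * (v 1).re) ^ 2 + ((1 - e) * (v 0).im + c * (v 1).im) ^ 2
        + (e * (1 - e) - c ^ 2) * ((v 1).re ^ 2 + (v 1).im ^ 2) := by ring
      have he : 0 < 1 - e := by linarith
      have h4 : 0 < ((1 - e) * (v 0).re + c * (v 1).re) ^ 2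
          + ((1 - e) * (v 0).im + c * (v 1).im) ^ 2
          + (e * (1 - e) - c ^ 2) * ((v 1).re ^ 2 + (v 1).im ^ 2) := by
        by_cases hv1 : v 1 = 0
        · have hv0 : v 0 ≠ 0 := by
            intro h0
            apply hv
            ext i
            fin_cases i
            · exact h0
            · exact hv1
          have h5 : (v 0).re ≠ 0 ∨ (v 0).im ≠ 0 := by
            by_contra h
            push Not at h
            exact hv0 (Complex.ext h.1 h.2)
          simp only [hv1, Complex.zero_re, Complex.zero_im, mul_zero, add_zero]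
          rcases h5 with h5 | h5
          · have : 0 < ((1 - e) * (v 0).re) ^ 2 := by positivity
            nlinarith [sq_nonneg ((1 - e) * (v 0).im)]
          · have : 0 < ((1 - e) * (v 0).im) ^ 2 := by positivity
            nlinarith [sq_nonneg ((1 - e) * (v 0).re)]
        · have h5 : (v 1).re ≠ 0 ∨ (v 1).im ≠ 0 := by
            by_contra h
            push Not at h
            exact hv1 (Complex.ext h.1 h.2)
          have h6 : 0 < (v 1).re ^ 2 + (v 1).im ^ 2 := by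
            rcases h5 with h5 | h5 <;> positivity
          have h7 : 0 < (e * (1 - e) - c ^ 2) * ((v 1).re ^ 2 + (v 1).im ^ 2) :=
            mul_pos (by linarith) h6
          positivity
      rw [← h3] at h4
      exact (pos_iff_pos_of_mul_pos h4).1 he
    exact_mod_cast h2

lemma rhoE_trace (e c : ℝ) : (rhoE e c).trace = 1 := by
  rw [Matrix.trace, Fin.sum_univ_two]
  simp [rhoE]

lemma rhoE_state {e c : ℝ} (he0 : 0 < e) (he1 : e < 1) (hc : c ^ 2 < e * (1 - e)) :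
    IsState (rhoE e c) :=
  ⟨(rhoE_posDef he0 he1 hc).posSemidef, rhoE_trace e c⟩

lemma chM_rhoE (e c : ℝ) : chM (rhoE e c) = rhoE e (c / 2) := by
  rw [chM_apply, rhoE, rhoE]
  ext i j
  fin_cases i <;> fin_cases j <;> simp

/-- output probabilities of the measurement on `rhoE e c` -/
noncomputable def pE (e c : ℝ) : Fin 6 → ℝ :=
  ![(1 - e) / 3, e / 3, (1 + 2 * c) / 6, (1 - 2 * c) / 6, 1 / 6, 1 / 6]

lemma chN_rhoE (e c : ℝ) : chN (rhoE e c) = diagonal fun i => (pE e c i : ℂ) := by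
  rw [chN_apply]
  apply diag_eq_of_real
  intro i
  fin_cases i <;> simp [rhoE, pE] <;> ring

lemma rhoE_diag (e : ℝ) : rhoE e 0 = diagonal fun i => ((![1 - e, e] i : ℝ) : ℂ) := by
  rw [rhoE]
  ext i j
  fin_cases i <;> fin_cases j <;> simp

lemma stdDiv_M {e c : ℝ} (he0 : 0 < e) (he1 : e < 1) (hc : c ^ 2 < e * (1 - e)) :
    stdDiv (fun x => (x - 1) ^ 2) (chM (rhoE e c)) (chM (rhoE e 0)) =
      c ^ 2 / (4 * (e * (1 - e))) := by
  have h0 : (0 : ℝ) ^ 2 < e * (1 - e) := by nlinarith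
  have hc2 : (c / 2) ^ 2 < e * (1 - e) := by nlinarith [sq_nonneg c]
  have he : 0 < 1 - e := by linarith
  rw [chM_rhoE, chM_rhoE, zero_div, stdDiv_sq_of_hermitian (rhoE_posDef he0 he1 hc2).posSemidef
    (rhoE_posDef he0 he1 h0).posSemidef, rhoE_diag e, ginv_diag, cfc_diag]
  have h1 : rhoE e (c / 2) * (diagonal fun i => ((Real.sqrt (![1 - e, e] i) : ℝ) : ℂ)) *
      (diagonal fun i => (((![1 - e, e] i)⁻¹ : ℝ) : ℂ)) -
      (diagonal fun i => ((Real.sqrt (![1 - e, e] i) : ℝ) : ℂ)) =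
      !![0, ((c / 2 * Real.sqrt e * e⁻¹ : ℝ) : ℂ);
        ((c / 2 * Real.sqrt (1 - e) * (1 - e)⁻¹ : ℝ) : ℂ), 0] := by
    have a1 : ((1 - e : ℝ) : ℂ) * ((1 - e : ℝ) : ℂ)⁻¹ = 1 :=
      mul_inv_cancel₀ (by exact_mod_cast he.ne')
    have a2 : (e : ℂ) * (e : ℂ)⁻¹ = 1 := mul_inv_cancel₀ (by exact_mod_cast he0.ne')
    ext i j
    rw [Matrix.sub_apply, mul_diagonal, mul_diagonal]
    fin_cases i <;> fin_cases j
    · simp [rhoE]
      push_cast at a1
      linear_combination ((Real.sqrt (1 - e) : ℝ) : ℂ) * a1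
    · simp [rhoE]
    · simp [rhoE]
    · simp [rhoE]
      linear_combination ((Real.sqrt e : ℝ) : ℂ) * a2
  rw [h1]
  have h2 : ((!![0, ((c / 2 * Real.sqrt e * e⁻¹ : ℝ) : ℂ);
        ((c / 2 * Real.sqrt (1 - e) * (1 - e)⁻¹ : ℝ) : ℂ), 0] : Matrix (Fin 2) (Fin 2) ℂ)ᴴ *
      !![0, ((c / 2 * Real.sqrt e * e⁻¹ : ℝ) : ℂ);
        ((c / 2 * Real.sqrt (1 - e) * (1 - e)⁻¹ : ℝ) : ℂ), 0]).trace =
      (((c / 2 * Real.sqrt (1 - e) * (1 - e)⁻¹) ^ 2 + (c / 2 * Real.sqrt e * e⁻¹) ^ 2 : ℝ) : ℂ) := by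
    rw [Matrix.trace, Fin.sum_univ_two]
    simp only [Matrix.diag, Matrix.mul_apply, Matrix.conjTranspose_apply, Fin.sum_univ_two]
    simp
    ring
  rw [h2, Complex.ofReal_re, mul_pow, mul_pow, mul_pow, mul_pow, Real.sq_sqrt he0.le,
    Real.sq_sqrt he.le]
  field_simp
  ring

lemma stdDiv_N {e c : ℝ} (he0 : 0 < e) (he1 : e < 1) :
    stdDiv (fun x => (x - 1) ^ 2) (chN (rhoE e c)) (chN (rhoE e 0)) = 4 / 3 * c ^ 2 := by
  have he : 0 < 1 - e := by linarith
  rw [chN_rhoE, chN_rhoE, stdDiv_diag]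
  · rw [Fin.sum_univ_six]
    simp [pE]
    field_simp
    ring
  · intro i
    fin_cases i <;> simp [pE] <;> linarith

lemma std_zero : IsGLB (stdRatios (fun x => (x - 1) ^ 2) chN chM) 0 := by
  constructor
  · rintro r ⟨ρ, γ, -, -, -, -, -, rfl⟩
    exact div_nonneg (stdDiv_nonneg (fun x => sq_nonneg _) _ _)
      (stdDiv_nonneg (fun x => sq_nonneg _) _ _)
  · intro b hb
    by_contra h
    push Not at h
    -- choose `e` small
    set e := min (1 / 2) (b / 16) with he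
    have he0 : 0 < e := by
      rw [he]; exact lt_min (by norm_num) (by linarith)
    have he1 : e ≤ 1 / 2 := min_le_left _ _
    have heb : e ≤ b / 16 := min_le_right _ _
    have hc : (e / 2) ^ 2 < e * (1 - e) := by nlinarith
    have h0 : (0 : ℝ) ^ 2 < e * (1 - e) := by nlinarith
    have hmem : 16 / 3 * (e * (1 - e)) ∈ stdRatios (fun x => (x - 1) ^ 2) chN chM := by
      refine ⟨rhoE e (e / 2), rhoE e 0, rhoE_state he0 (by linarith) hc,
        rhoE_state he0 (by linarith) h0, ?_, ?_, ?_, ?_⟩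
      · intro heq
        have := congrFun (congrFun heq 0) 1
        simp [rhoE] at this
        linarith
      · intro v
        have inj : ∀ A : Matrix (Fin 2) (Fin 2) ℂ, A.PosDef → (A *ᵥ v = 0 ↔ v = 0) := by
          intro A hA
          constructor
          · intro hv
            by_contra hne
            have := hA.dotProduct_mulVec_pos hne
            rw [hv, dotProduct_zero] at this
            exact lt_irrefl _ this
          · rintro rfl
            simp
        rw [inj _ (rhoE_posDef he0 (by linarith) hc), inj _ (rhoE_posDef he0 (by linarith) h0)]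
      · rw [stdDiv_M he0 (by linarith) hc]
        have : 0 < e * (1 - e) := by nlinarith
        positivity
      · rw [stdDiv_M he0 (by linarith) hc, stdDiv_N he0 (by linarith)]
        have : 0 < 1 - e := by linarith
        field_simp
        ring
    have := hb hmem
    nlinarith

/-! ## The Riemannian coefficient is positive -/

/-- general state of a qubit -/
lemma state_form {ρ : Matrix (Fin 2) (Fin 2) ℂ} (h : IsState ρ) :
    ∃ (a : ℝ) (b : ℂ), 0 ≤ a ∧ a ≤ 1 ∧ b.re ^ 2 + b.im ^ 2 ≤ a * (1 - a) ∧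
      ρ = !![(a : ℂ), b; (starRingEnd ℂ) b, ((1 - a : ℝ) : ℂ)] := by
  obtain ⟨hp, ht⟩ := h
  have h0 := hp.diag_nonneg (i := (0 : Fin 2))
  have h1 := hp.diag_nonneg (i := (1 : Fin 2))
  have hd := hp.det_nonneg
  rw [det_fin_two] at hd
  have h10 : ρ 1 0 = (starRingEnd ℂ) (ρ 0 1) := (hp.1.apply 1 0).symm
  rw [Matrix.trace, Fin.sum_univ_two, diag_apply, diag_apply] at ht
  obtain ⟨a0, a1⟩ := Complex.nonneg_iff.1 h0
  obtain ⟨b0, b1⟩ := Complex.nonneg_iff.1 h1
  have hr := congrArg Complex.re ht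
  simp at hr
  refine ⟨(ρ 0 0).re, ρ 0 1, a0, by linarith, ?_, ?_⟩
  · have hd1 := (Complex.nonneg_iff.1 hd).1
    rw [h10] at hd1
    simp [Complex.mul_re] at hd1
    rw [← a1, ← b1] at hd1
    have : (ρ 1 1).re = 1 - (ρ 0 0).re := by linarith
    rw [this] at hd1
    nlinarith
  · ext i j
    fin_cases i <;> fin_cases j
    · apply Complex.ext <;> simp [← a1]
    · simp
    · simp [h10]
    · apply Complex.ext <;> simp [← b1]
      linarith

lemma tangent_form {X : Matrix (Fin 2) (Fin 2) ℂ} (h : X.IsHermitian) (ht : X.trace = 0) :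
    ∃ (x : ℝ) (y : ℂ), X = !![(x : ℂ), y; (starRingEnd ℂ) y, ((-x : ℝ) : ℂ)] := by
  have h10 : X 1 0 = (starRingEnd ℂ) (X 0 1) := (h.apply 1 0).symm
  have h00 : (starRingEnd ℂ) (X 0 0) = X 0 0 := h.apply 0 0
  have h11 : (starRingEnd ℂ) (X 1 1) = X 1 1 := h.apply 1 1
  rw [Complex.conj_eq_iff_im] at h00 h11
  rw [Matrix.trace, Fin.sum_univ_two, diag_apply, diag_apply] at ht
  have hr := congrArg Complex.re ht
  simp at hr
  refine ⟨(X 0 0).re, X 0 1, ?_⟩
  ext i j
  fin_cases i <;> fin_cases j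
  · apply Complex.ext <;> simp [h00]
  · simp
  · simp [h10]
  · apply Complex.ext <;> simp [h11]
    linarith

/-- The semi-norm of the measured tangent vector. -/
lemma riem_N (a x : ℝ) (b y : ℂ) :
    riemSq kap (chN !![(a : ℂ), b; (starRingEnd ℂ) b, ((1 - a : ℝ) : ℂ)])
      (chN !![(x : ℂ), y; (starRingEnd ℂ) y, ((-x : ℝ) : ℂ)]) =
    (x / 3) ^ 2 * (a / 3)⁻¹ + (x / 3) ^ 2 * ((1 - a) / 3)⁻¹
      + (y.re / 3) ^ 2 * ((1 + 2 * b.re) / 6)⁻¹ + (y.re / 3) ^ 2 * ((1 - 2 * b.re) / 6)⁻¹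
      + (y.im / 3) ^ 2 * ((1 - 2 * b.im) / 6)⁻¹ + (y.im / 3) ^ 2 * ((1 + 2 * b.im) / 6)⁻¹ := by
  have h1 : chN !![(a : ℂ), b; (starRingEnd ℂ) b, ((1 - a : ℝ) : ℂ)] =
      diagonal fun i => ((![a / 3, (1 - a) / 3, (1 + 2 * b.re) / 6, (1 - 2 * b.re) / 6,
        (1 - 2 * b.im) / 6, (1 + 2 * b.im) / 6] i : ℝ) : ℂ) := by
    rw [chN_apply]
    apply diag_eq_of_real
    intro i
    fin_cases i <;> apply Complex.ext <;> simp <;> ring
  have h2 : chN !![(x : ℂ), y; (starRingEnd ℂ) y, ((-x : ℝ) : ℂ)] =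
      diagonal fun i => ((![x / 3, -(x / 3), y.re / 3, -(y.re / 3),
        -(y.im / 3), y.im / 3] i : ℝ) : ℂ) := by
    rw [chN_apply]
    apply diag_eq_of_real
    intro i
    fin_cases i <;> apply Complex.ext <;> simp <;> ring
  have h3 : ∀ p : ℝ, kap (p * p⁻¹) * p⁻¹ = p⁻¹ := by
    intro p
    by_cases hp : p = 0
    · simp [hp]
    · rw [mul_inv_cancel₀ hp]
      norm_num [kap]
  rw [h1, h2, riemSq_diag, Fin.sum_univ_six]
  simp only [mul_assoc, h3]
  simp

lemma inv_ge_one {u : ℝ} (h0 : 0 ≤ u) (h1 : u ≤ 1) : u ≤ u⁻¹ := by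
  rcases h0.eq_or_lt with h | h
  · rw [← h]; simp
  · exact h1.trans ((one_le_inv₀ h).2 h1)

lemma riem_N_lower {a x : ℝ} {b y : ℂ} (_ha0 : 0 ≤ a) (_ha1 : a ≤ 1)
    (hb : b.re ^ 2 + b.im ^ 2 ≤ a * (1 - a)) :
    1 / 3 * (x ^ 2 * (a⁻¹ + (1 - a)⁻¹) + (y.re ^ 2 + y.im ^ 2)) ≤
    riemSq kap (chN !![(a : ℂ), b; (starRingEnd ℂ) b, ((1 - a : ℝ) : ℂ)])
      (chN !![(x : ℂ), y; (starRingEnd ℂ) y, ((-x : ℝ) : ℂ)]) := by
  rw [riem_N]
  have ha : a * (1 - a) ≤ 1 / 4 := by nlinarith [sq_nonneg (a - 1 / 2)]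
  have hbr : b.re ^ 2 ≤ 1 / 4 := by nlinarith [sq_nonneg b.im]
  have hbi : b.im ^ 2 ≤ 1 / 4 := by nlinarith [sq_nonneg b.re]
  obtain ⟨r1, r2⟩ : -(1 / 2) ≤ b.re ∧ b.re ≤ 1 / 2 := by
    constructor <;> nlinarith
  obtain ⟨i1, i2⟩ : -(1 / 2) ≤ b.im ∧ b.im ≤ 1 / 2 := by
    constructor <;> nlinarith
  have key : ∀ u : ℝ, 0 ≤ u → u ≤ 2 → u / 4 * 3 ≤ 1 / 2 * (u / 6)⁻¹ := by
    intro u h0 h2
    rcases h0.eq_or_lt with h | h
    · rw [← h]; simp
    · rw [inv_div]
      rw [show (1 : ℝ) / 2 * (6 / u) = 3 / u by ring, le_div_iff₀ h]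
      nlinarith
  have k1 := key (1 + 2 * b.re) (by linarith) (by linarith)
  have k2 := key (1 - 2 * b.re) (by linarith) (by linarith)
  have k3 := key (1 + 2 * b.im) (by linarith) (by linarith)
  have k4 := key (1 - 2 * b.im) (by linarith) (by linarith)
  have k5 : 3 ≤ ((1 + 2 * b.re) / 6)⁻¹ + ((1 - 2 * b.re) / 6)⁻¹ := by linarith
  have k6 : 3 ≤ ((1 - 2 * b.im) / 6)⁻¹ + ((1 + 2 * b.im) / 6)⁻¹ := by linarith
  have e1 : (a / 3)⁻¹ = 3 * a⁻¹ := by rw [inv_div]; rfl
  have e2 : ((1 - a) / 3)⁻¹ = 3 * (1 - a)⁻¹ := by rw [inv_div]; rfl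
  rw [e1, e2]
  nlinarith [mul_le_mul_of_nonneg_left k5 (sq_nonneg (y.re / 3)),
    mul_le_mul_of_nonneg_left k6 (sq_nonneg (y.im / 3))]

lemma riem_M (a x : ℝ) (b y : ℂ) (ha0 : 0 < a) (ha1 : a < 1)
    (hb : b.re ^ 2 + b.im ^ 2 ≤ a * (1 - a)) :
    riemSq kap (chM !![(a : ℂ), b; (starRingEnd ℂ) b, ((1 - a : ℝ) : ℂ)])
      (chM !![(x : ℂ), y; (starRingEnd ℂ) y, ((-x : ℝ) : ℂ)]) =
    4 * x ^ 2 + (y.re ^ 2 + y.im ^ 2) +
      ((2 * a - 1) * x + 1 / 2 * (b.re * y.re + b.im * y.im)) ^ 2 /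
        (a * (1 - a) - (b.re ^ 2 + b.im ^ 2) / 4) := by
  set D : ℝ := a * (1 - a) - (b.re ^ 2 + b.im ^ 2) / 4 with hD
  set T : ℝ := (2 * a - 1) * x + 1 / 2 * (b.re * y.re + b.im * y.im) with hT
  have hpos : 0 < a * (1 - a) := mul_pos ha0 (by linarith)
  have hD0 : 0 < D := by
    rw [hD]; nlinarith
  have hσ : (chM !![(a : ℂ), b; (starRingEnd ℂ) b, ((1 - a : ℝ) : ℂ)]).PosDef := by
    rw [chM_apply]
    have hsemi : (!![(a : ℂ), b / 2; (starRingEnd ℂ) b / 2, ((1 - a : ℝ) : ℂ)] :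
        Matrix (Fin 2) (Fin 2) ℂ).IsHermitian := by
      rw [IsHermitian]
      ext i j
      fin_cases i <;> fin_cases j <;> simp
    have h1 : (!![(a : ℂ), b / 2; (starRingEnd ℂ) b / 2, ((1 - a : ℝ) : ℂ)] :
        Matrix (Fin 2) (Fin 2) ℂ).PosDef := by
      apply PosDef.of_dotProduct_mulVec_pos hsemi
      intro v hv
      have h2 : star v ⬝ᵥ ((!![(a : ℂ), b / 2; (starRingEnd ℂ) b / 2, ((1 - a : ℝ) : ℂ)] :
          Matrix (Fin 2) (Fin 2) ℂ) *ᵥ v) =
          ((a * (v 0).re ^ 2 + a * (v 0).im ^ 2 + (1 - a) * (v 1).re ^ 2 + (1 - a) * (v 1).im ^ 2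
            + b.re * ((v 0).re * (v 1).re + (v 0).im * (v 1).im)
            + b.im * ((v 0).im * (v 1).re - (v 0).re * (v 1).im) : ℝ) : ℂ) := by
        apply Complex.ext <;>
        simp [dotProduct, mulVec, Fin.sum_univ_two, -Complex.ofReal_pow] <;> ring
      rw [h2]
      have h3 : a * (a * (v 0).re ^ 2 + a * (v 0).im ^ 2 + (1 - a) * (v 1).re ^ 2
            + (1 - a) * (v 1).im ^ 2
            + b.re * ((v 0).re * (v 1).re + (v 0).im * (v 1).im)
            + b.im * ((v 0).im * (v 1).re - (v 0).re * (v 1).im)) =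
          (a * (v 0).re + (b.re * (v 1).re - b.im * (v 1).im) / 2) ^ 2 +
          (a * (v 0).im + (b.re * (v 1).im + b.im * (v 1).re) / 2) ^ 2 +
          D * ((v 1).re ^ 2 + (v 1).im ^ 2) := by
        rw [hD]; ring
      have h4 : 0 < (a * (v 0).re + (b.re * (v 1).re - b.im * (v 1).im) / 2) ^ 2 +
          (a * (v 0).im + (b.re * (v 1).im + b.im * (v 1).re) / 2) ^ 2 +
          D * ((v 1).re ^ 2 + (v 1).im ^ 2) := by
        by_cases hv1 : v 1 = 0
        · have hv0 : v 0 ≠ 0 := by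
            intro h0
            apply hv
            ext i
            fin_cases i
            · exact h0
            · exact hv1
          have h5 : (v 0).re ≠ 0 ∨ (v 0).im ≠ 0 := by
            by_contra h
            push Not at h
            exact hv0 (Complex.ext h.1 h.2)
          simp only [hv1, Complex.zero_re, Complex.zero_im, mul_zero, add_zero, sub_zero,
            zero_div]
          rcases h5 with h5 | h5
          · have : 0 < (a * (v 0).re) ^ 2 := by positivity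
            nlinarith [sq_nonneg (a * (v 0).im)]
          · have : 0 < (a * (v 0).im) ^ 2 := by positivity
            nlinarith [sq_nonneg (a * (v 0).re)]
        · have h5 : (v 1).re ≠ 0 ∨ (v 1).im ≠ 0 := by
            by_contra h
            push Not at h
            exact hv1 (Complex.ext h.1 h.2)
          have h6 : 0 < (v 1).re ^ 2 + (v 1).im ^ 2 := by
            rcases h5 with h5 | h5 <;> positivity
          have h7 := mul_pos hD0 h6
          positivity
      rw [← h3] at h4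
      exact_mod_cast (pos_iff_pos_of_mul_pos h4).1 ha0
    convert h1 using 1
    ext i j
    fin_cases i <;> fin_cases j <;> simp
  -- solution of the Lyapunov equation
  have hDc : (D : ℂ) ≠ 0 := by exact_mod_cast hD0.ne'
  have hDe : (D : ℂ) = a * (1 - a) - b * (starRingEnd ℂ) b / 4 := by
    rw [Complex.mul_conj, Complex.normSq_apply, hD]
    push_cast
    ring
  have hTe : (T : ℂ) = (2 * a - 1) * x + (b * (starRingEnd ℂ) y + (starRingEnd ℂ) b * y) / 4 := by
    apply Complex.ext <;> simp [hT] <;> ring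
  have hG := riemSq_of_solve (σ := chM !![(a : ℂ), b; (starRingEnd ℂ) b, ((1 - a : ℝ) : ℂ)])
    (Y := chM !![(x : ℂ), y; (starRingEnd ℂ) y, ((-x : ℝ) : ℂ)])
    (G := !![2 * (x : ℂ) + T / D * (a - 1), y + T / D * (b / 2);
      (starRingEnd ℂ) y + T / D * ((starRingEnd ℂ) b / 2), -2 * (x : ℂ) - T / D * a]) hσ (by
      rw [chM_apply, chM_apply]
      ext i j
      rw [Matrix.add_apply, Matrix.mul_apply, Matrix.mul_apply, Fin.sum_univ_two,
        Fin.sum_univ_two, Matrix.smul_apply]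
      fin_cases i <;> fin_cases j
      · simp
        field_simp
        rw [hDe, hTe]
        ring
      · simp
        field_simp
        ring
      · simp
        field_simp
        ring
      · simp
        field_simp
        rw [hDe, hTe]
        ring)
  rw [hG, chM_apply]
  have h5 : ((!![((!![(x : ℂ), y; (starRingEnd ℂ) y, ((-x : ℝ) : ℂ)] :
        Matrix (Fin 2) (Fin 2) ℂ) 0 0),
      (!![(x : ℂ), y; (starRingEnd ℂ) y, ((-x : ℝ) : ℂ)] : Matrix (Fin 2) (Fin 2) ℂ) 0 1 / 2;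
      (!![(x : ℂ), y; (starRingEnd ℂ) y, ((-x : ℝ) : ℂ)] : Matrix (Fin 2) (Fin 2) ℂ) 1 0 / 2,
      (!![(x : ℂ), y; (starRingEnd ℂ) y, ((-x : ℝ) : ℂ)] : Matrix (Fin 2) (Fin 2) ℂ) 1 1] :
        Matrix (Fin 2) (Fin 2) ℂ)ᴴ *
      !![2 * (x : ℂ) + T / D * (a - 1), y + T / D * (b / 2);
      (starRingEnd ℂ) y + T / D * ((starRingEnd ℂ) b / 2), -2 * (x : ℂ) - T / D * a]).trace =
      ((4 * x ^ 2 + (y.re ^ 2 + y.im ^ 2) + T ^ 2 / D : ℝ) : ℂ) := by
    have h6 : T ^ 2 / D = T / D * T := by ring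
    have h7 : ((y.re ^ 2 + y.im ^ 2 : ℝ) : ℂ) = y * (starRingEnd ℂ) y := by
      rw [Complex.mul_conj, Complex.normSq_apply]
      push_cast
      ring
    rw [h6]
    push_cast
    have h8 : (y.re : ℂ) ^ 2 + (y.im : ℂ) ^ 2 = y * (starRingEnd ℂ) y := by
      rw [← h7]; push_cast; ring
    rw [h8, Matrix.trace, Fin.sum_univ_two]
    simp only [Matrix.diag, Matrix.mul_apply, Matrix.conjTranspose_apply, Fin.sum_univ_two]
    simp
    have h9 := hTe
    linear_combination (T / D : ℂ) * (-1) * h9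
  rw [h5, Complex.ofReal_re]

lemma riem_M_zero (a x : ℝ) (y : ℂ) (ha : a = 0 ∨ a = 1) :
    riemSq kap (chM !![(a : ℂ), 0; (starRingEnd ℂ) 0, ((1 - a : ℝ) : ℂ)])
      (chM !![(x : ℂ), y; (starRingEnd ℂ) y, ((-x : ℝ) : ℂ)]) =
    x ^ 2 + (y.re ^ 2 + y.im ^ 2) / 2 := by
  have h1 : chM !![(a : ℂ), 0; (starRingEnd ℂ) 0, ((1 - a : ℝ) : ℂ)] =
      diagonal fun i => ((![a, 1 - a] i : ℝ) : ℂ) := by
    rw [chM_apply]
    ext i j
    fin_cases i <;> fin_cases j <;> simp
  rw [h1, riemSq, relMod_diag, cfc_diag, ginv_diag, chM_apply]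
  simp only [dotProduct, mulVec_diagonal, vec, Pi.star_apply, Fintype.sum_prod_type,
    Fin.sum_univ_two, mul_diagonal]
  have h1re : (1 : ℂ).re = 1 := Complex.one_re
  rcases ha with rfl | rfl
  · simp [kap]
    ring_nf
    rw [h1re]
    ring
  · simp [kap]
    ring_nf
    rw [h1re]
    ring

lemma riem_compare {a x : ℝ} {b y : ℂ} (ha0 : 0 ≤ a) (ha1 : a ≤ 1)
    (hb : b.re ^ 2 + b.im ^ 2 ≤ a * (1 - a)) :
    0 ≤ riemSq kap (chM !![(a : ℂ), b; (starRingEnd ℂ) b, ((1 - a : ℝ) : ℂ)])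
      (chM !![(x : ℂ), y; (starRingEnd ℂ) y, ((-x : ℝ) : ℂ)]) ∧
    riemSq kap (chM !![(a : ℂ), b; (starRingEnd ℂ) b, ((1 - a : ℝ) : ℂ)])
      (chM !![(x : ℂ), y; (starRingEnd ℂ) y, ((-x : ℝ) : ℂ)]) ≤
    11 * riemSq kap (chN !![(a : ℂ), b; (starRingEnd ℂ) b, ((1 - a : ℝ) : ℂ)])
      (chN !![(x : ℂ), y; (starRingEnd ℂ) y, ((-x : ℝ) : ℂ)]) := by
  have hN := riem_N_lower (x := x) (y := y) ha0 ha1 hb
  by_cases hsing : a = 0 ∨ a = 1
  · have hb0 : b = 0 := by
      have h1 : b.re ^ 2 + b.im ^ 2 ≤ 0 := by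
        rcases hsing with rfl | rfl <;> simpa using hb
      have h2 : b.re = 0 := by nlinarith [sq_nonneg b.re, sq_nonneg b.im]
      have h3 : b.im = 0 := by nlinarith [sq_nonneg b.re, sq_nonneg b.im]
      exact Complex.ext h2 h3
    subst hb0
    rw [riem_M_zero a x y hsing]
    refine ⟨by positivity, ?_⟩
    have h1 : a⁻¹ + (1 - a)⁻¹ = 1 := by
      rcases hsing with rfl | rfl <;> simp
    rw [h1] at hN
    nlinarith [sq_nonneg x, sq_nonneg y.re, sq_nonneg y.im]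
  · push Not at hsing
    have ha0' : 0 < a := lt_of_le_of_ne ha0 (Ne.symm hsing.1)
    have ha1' : a < 1 := lt_of_le_of_ne ha1 hsing.2
    have h1a : 0 < 1 - a := by linarith
    rw [riem_M a x b y ha0' ha1' hb]
    set P : ℝ := a * (1 - a) with hP
    have hP0 : 0 < P := mul_pos ha0' h1a
    have hP4 : P ≤ 1 / 4 := by nlinarith [sq_nonneg (a - 1 / 2)]
    have hD : 3 / 4 * P ≤ P - (b.re ^ 2 + b.im ^ 2) / 4 := by linarith
    have hD0 : 0 < P - (b.re ^ 2 + b.im ^ 2) / 4 := by nlinarith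
    refine ⟨by positivity, ?_⟩
    have hinv : a⁻¹ + (1 - a)⁻¹ = P⁻¹ := by
      rw [hP]; field_simp; ring
    rw [hinv] at hN
    set Y : ℝ := y.re ^ 2 + y.im ^ 2 with hY
    have hY0 : 0 ≤ Y := by positivity
    have hT : ((2 * a - 1) * x + 1 / 2 * (b.re * y.re + b.im * y.im)) ^ 2 ≤
        2 * x ^ 2 + 1 / 2 * P * Y := by
      have t1 : (b.re * y.re + b.im * y.im) ^ 2 ≤ P * Y := by
        have : (b.re * y.re + b.im * y.im) ^ 2 ≤ (b.re ^ 2 + b.im ^ 2) * Y := by
          rw [hY]; nlinarith [sq_nonneg (b.re * y.im - b.im * y.re)]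
        exact this.trans (mul_le_mul_of_nonneg_right hb hY0)
      have t2 : ((2 * a - 1) * x) ^ 2 ≤ x ^ 2 := by
        have : (2 * a - 1) ^ 2 ≤ 1 := by nlinarith
        calc ((2 * a - 1) * x) ^ 2 = (2 * a - 1) ^ 2 * x ^ 2 := by ring
          _ ≤ 1 * x ^ 2 := mul_le_mul_of_nonneg_right this (sq_nonneg x)
          _ = x ^ 2 := one_mul _
      nlinarith [sq_nonneg ((2 * a - 1) * x - 1 / 2 * (b.re * y.re + b.im * y.im))]
    have hfrac : ((2 * a - 1) * x + 1 / 2 * (b.re * y.re + b.im * y.im)) ^ 2 /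
        (P - (b.re ^ 2 + b.im ^ 2) / 4) ≤ 8 / 3 * (x ^ 2 * P⁻¹) + 2 / 3 * Y := by
      rw [div_le_iff₀ hD0]
      have e1 : x ^ 2 * P⁻¹ * P = x ^ 2 := by field_simp
      have e2 : (8 / 3 * (x ^ 2 * P⁻¹) + 2 / 3 * Y) * (3 / 4 * P) =
          2 * x ^ 2 + 1 / 2 * P * Y := by
        linear_combination 2 * e1
      have e3 : 0 ≤ 8 / 3 * (x ^ 2 * P⁻¹) + 2 / 3 * Y := by positivity
      calc _ ≤ 2 * x ^ 2 + 1 / 2 * P * Y := hT
        _ = (8 / 3 * (x ^ 2 * P⁻¹) + 2 / 3 * Y) * (3 / 4 * P) := e2.symm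
        _ ≤ _ := mul_le_mul_of_nonneg_left hD e3
    have hx : 4 * x ^ 2 ≤ x ^ 2 * P⁻¹ := by
      have : 4 ≤ P⁻¹ := by
        rw [le_inv_comm₀ (by norm_num) hP0]
        linarith
      nlinarith [mul_le_mul_of_nonneg_left this (sq_nonneg x)]
    have hx0 : 0 ≤ x ^ 2 * P⁻¹ := by positivity
    linarith

lemma riem_pos : ∃ c : ℝ, 0 < c ∧ IsGLB (riemRatios kap chN chM) c := by
  have hlow : ∀ r ∈ riemRatios kap chN chM, 1 / 11 ≤ r := by
    rintro r ⟨ρ, X, hρ, hX, hX0, hne, rfl⟩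
    obtain ⟨a, b, ha0, ha1, hb, rfl⟩ := state_form hρ
    obtain ⟨x, y, rfl⟩ := tangent_form hX hX0
    obtain ⟨h1, h2⟩ := riem_compare (x := x) (y := y) ha0 ha1 hb
    have h3 := lt_of_le_of_ne h1 (Ne.symm hne)
    rw [le_div_iff₀ h3]
    linarith
  have hne : (riemRatios kap chN chM).Nonempty := by
    refine ⟨_, !![((1 / 2 : ℝ) : ℂ), 0; (starRingEnd ℂ) 0, ((1 - 1 / 2 : ℝ) : ℂ)],
      !![((1 : ℝ) : ℂ), 0; (starRingEnd ℂ) 0, ((-1 : ℝ) : ℂ)], ?_, ?_, ?_, ?_, rfl⟩
    · have h := rhoE_state (e := 1 / 2) (c := 0) (by norm_num) (by norm_num) (by norm_num)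
      rw [rhoE] at h
      convert h using 2
      ext i j
      fin_cases i <;> fin_cases j <;> norm_num
    · rw [IsHermitian]
      ext i j
      fin_cases i <;> fin_cases j <;> simp
    · rw [Matrix.trace, Fin.sum_univ_two]
      simp
    · rw [riem_M (1 / 2) 1 0 0 (by norm_num) (by norm_num) (by norm_num)]
      norm_num
  exact ⟨sInf (riemRatios kap chN chM),
    lt_of_lt_of_le (by norm_num) (le_csInf hne hlow), isGLB_csInf hne ⟨1 / 11, hlow⟩⟩

theorem main :
    ∃ (N : Matrix (Fin 2) (Fin 2) ℂ →ₗ[ℂ] Matrix (Fin 6) (Fin 6) ℂ)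
      (M : Matrix (Fin 2) (Fin 2) ℂ →ₗ[ℂ] Matrix (Fin 2) (Fin 2) ℂ),
      IsChannel N ∧ IsChannel M ∧
      ∃ f κ : ℝ → ℝ, ClassF f ∧ ClassK κ ∧ ContinuousAt κ 0 ∧
        (etaStd f N M = 0 ∧ IsGLB (stdRatios f N M) (etaStd f N M)) ∧
        (0 < etaRiem κ N M ∧ IsGLB (riemRatios κ N M) (etaRiem κ N M)) := by
  refine ⟨chN, chM, chN_channel, chM_channel, fun x => (x - 1) ^ 2, kap, classF_sq, classK_kap,
    ?_, ?_, ?_⟩
  · unfold kap
    exact continuousAt_const.div (continuousAt_const.add continuousAt_id) (by norm_num)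
  · have h := std_zero
    have hne : (stdRatios (fun x => (x - 1) ^ 2) chN chM).Nonempty := by
      by_contra hemp
      rw [Set.not_nonempty_iff_eq_empty] at hemp
      rw [hemp] at h
      have := h.2 (show (1 : ℝ) ∈ lowerBounds ∅ by simp)
      linarith
    have e : etaStd (fun x => (x - 1) ^ 2) chN chM = 0 := h.csInf_eq hne
    rw [e]
    exact ⟨rfl, h⟩
  · obtain ⟨c, hc, h⟩ := riem_pos
    have hne : (riemRatios kap chN chM).Nonempty := by
      by_contra hemp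
      rw [Set.not_nonempty_iff_eq_empty] at hemp
      rw [hemp] at h
      have := h.2 (show (c + 1 : ℝ) ∈ lowerBounds ∅ by simp)
      linarith
    have e : etaRiem kap chN chM = c := h.csInf_eq hne
    rw [e]
    exact ⟨hc, h⟩

end Pool.Agent.R996.QI
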